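import Pool.Agent.helper62.T2.Defs
import Pool.Agent.helper82.PD.EvD
import Pool.Agent.helper82.PD.Rul
import Pool.Agent.helper49.PDR.Tel

/-!
# T2-VisH: the root theorem for the rule `Typ e`

The mass of the visits of the strip `[X, 2X)` at the levels `l, …, l + r`, by good words whose first `h0` letters satisfy `H`, is at
least the prediction at the level `l`, up to `d`; for every integer root `x`, every `H`, `K`, `r`, `X`.
-/

namespace Pool.Agent.helper62.T2

open Pool.Agent.helper14.EX1 Pool.Agent.helper82.PD Finset Pool.Agent.helper49.PDR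

open Classical in
theorem VisH_ev (K : ℕ) (X : ℝ) (n : ℕ) : ∀ l A : ℕ, vis K X n l A = ev K X n l A := by
  induction n with
  | zero =>
    intro l A
    rfl
  | succ n ih =>
    intro l A
    have h1 : vis K X (n + 1) l A = (if strip X l A then 1 else 0) +
      ∑ k ∈ Icc 1 K, (1 / 2 : ℝ) ^ k * vis K X n (l + 1) (A + k) := rfl
    have h2 : ev K X (n + 1) l A = (if St X l A then 1 else 0) +
      ∑ k ∈ Icc 1 K, (1 / 2 : ℝ) ^ k * ev K X n (l + 1) (A + k) := rfl
    rw [h1, h2]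
    have h3 : strip X l A ↔ St X l A := Iff.rfl
    simp only [ih, h3]

open Classical in
theorem visitsH {e : ℝ} (he : 0 < e) (he1 : e ≤ 1 / 100) (i0 : ℕ) {d : ℝ} (hd : 0 < d) :
    ∃ n0 : ℕ, ∀ (h0 l : ℕ), n0 ≤ l → 11 * h0 ≤ 10 * l →
      ∀ (K r : ℕ) (X : ℝ) (x : ℤ) (H : List ℕ → Prop), 0 < X →
      ∑ u ∈ lw K l, (if Gd e i0 u ∧ Ala x u ∧ H (u.take h0) then ww u * ev K X r l u.sum else 0) - d ≤
        ∑ j ∈ range (r + 1), ∑ v ∈ lw K (l + j),
          (if Gd e i0 v ∧ Ala x v ∧ H (v.take h0) ∧ St X (l + j) v.sum then ww v else 0) := by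
  obtain ⟨C, ρ, hC, hρ, hρ1, R, hR⟩ := exists_rule he he1
  obtain ⟨n0, -, hn0⟩ := vis_tel hC hρ hρ1 i0 hd
  refine ⟨n0, fun h0 l hl hh K r X x H hX => ?_⟩
  have h := hn0 R h0 l hl hh K r X x H hX
  have hG : ∀ w : List ℕ, Good R i0 w ↔ Gd e i0 w := by
    intro w
    unfold Good Gd
    exact forall_congr' fun i => imp_congr_right fun _ => imp_congr_right fun _ => hR _
  refine le_trans (le_of_eq ?_) (h.trans (le_of_eq ?_))
  · congr 1
    unfold GH
    rw [Finset.sum_filter]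
    refine Finset.sum_congr rfl fun u _ => ?_
    by_cases h1 : Gd e i0 u ∧ Ala x u ∧ H (u.take h0)
    · rw [if_pos h1, if_pos ⟨(hG u).2 h1.1, h1.2.2⟩, if_pos h1.2.1, VisH_ev]
    · rw [if_neg h1]
      by_cases h2 : Good R i0 u ∧ H (u.take h0)
      · rw [if_pos h2]
        have h3 : ¬ Ala x u := fun h4 => h1 ⟨(hG u).1 h2.1, h4, h2.2⟩
        rw [if_neg h3]
      · rw [if_neg h2]
  · refine Finset.sum_congr rfl fun j _ => ?_
    unfold GH
    rw [Finset.sum_filter]
    refine Finset.sum_congr rfl fun v _ => ?_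
    by_cases h1 : Gd e i0 v ∧ Ala x v ∧ H (v.take h0) ∧ St X (l + j) v.sum
    · have h5 : strip X (l + j) v.sum := h1.2.2.2
      rw [if_pos h1, if_pos ⟨(hG v).2 h1.1, h1.2.2.1⟩, if_pos ⟨h1.2.1, h5⟩]
    · rw [if_neg h1]
      by_cases h2 : Good R i0 v ∧ H (v.take h0)
      · rw [if_pos h2]
        have h3 : ¬ (Ala x v ∧ strip X (l + j) v.sum) := fun h4 => h1 ⟨(hG v).1 h2.1, h4.1, h2.2, h4.2⟩
        rw [if_neg h3]
      · rw [if_neg h2]

end Pool.Agent.helper62.T2
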