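import Pool.Agent.helper62.T2.Defs

/-!
# T2-Api: the ends of typical first passage words
-/

namespace Pool.Agent.helper62.T2

open Pool.Agent.helper14.EX1 Finset

/-- `b` is the end of a typical first passage word. -/
def Rch (e : ℝ) (Z : ℤ) (b : ℕ) : Prop :=
  ∃ (x : ℤ) (v : List ℕ), FP Z x v ∧ Typ e v ∧ 3 * nd x v + 2 = (b : ℤ)

/-- `n = 2 ^ i m`, `f m = 4 ^ j b` with `b` the end of a typical first passage word. -/
def Rep (J : ℕ) (e : ℝ) (Z : ℤ) (n : ℕ) : Prop :=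
  ∃ i j m b : ℕ, i + j ≤ J ∧ n = 2 ^ i * m ∧ Odd m ∧ 3 * m + 1 = 2 * 4 ^ j * b ∧ Rch e Z b

end Pool.Agent.helper62.T2
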