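import Mathlib

/-!
# T2-OSum: the sum of `1 / b` over the nodes which are not divisible by `4`

The classes `2, 5, 11` modulo `12`.  In one class `c` modulo `12`: if `b` is not the least element `≥ X` of the class then
`1 / b ≤ (log b - log (b - 12)) / 12`; so the sum over the class in `[X, Y)` is `≤ 1 / X + log (Y / X) / 12` (induction on the
upper end).
-/

namespace Pool.Agent.helper62.T2

theorem OSum_step {b : ℝ} (hb : 12 < b) : 1 / b ≤ (Real.log b - Real.log (b - 12)) / 12 := by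
  have h1 : 0 < b := by linarith
  have h2 : 0 < b - 12 := by linarith
  have h3 := Real.log_le_sub_one_of_pos (div_pos h2 h1)
  rw [Real.log_div h2.ne' h1.ne'] at h3
  have h4 : (b - 12) / b - 1 = - (12 * (1 / b)) := by
    field_simp
    ring
  rw [h4] at h3
  linarith

theorem OSum_class {X : ℕ} (hX : 1 ≤ X) (c : ℕ) (b0 : ℕ) : X ≤ b0 → b0 % 12 = c →
    ∑ b ∈ (Finset.Ico X (b0 + 1)).filter (fun b => b % 12 = c), (1 / (b : ℝ)) ≤
      1 / X + Real.log (b0 / X) / 12 := by
  have hX0 : (0 : ℝ) < X := by exact_mod_cast hX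
  induction b0 using Nat.strong_induction_on with
  | _ b0 ih =>
    intro h1 h2
    have hb : (X : ℝ) ≤ b0 := by exact_mod_cast h1
    have hb0 : (0 : ℝ) < b0 := lt_of_lt_of_le hX0 hb
    by_cases h3 : X + 12 ≤ b0
    · have e1 : (Finset.Ico X (b0 + 1)).filter (fun b => b % 12 = c) =
          insert b0 ((Finset.Ico X (b0 - 12 + 1)).filter (fun b => b % 12 = c)) := by
        ext b
        simp only [Finset.mem_filter, Finset.mem_Ico, Finset.mem_insert]
        omega
      have e2 : b0 ∉ (Finset.Ico X (b0 - 12 + 1)).filter (fun b => b % 12 = c) := by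
        simp only [Finset.mem_filter, Finset.mem_Ico]
        omega
      rw [e1, Finset.sum_insert e2]
      have h4 := ih (b0 - 12) (by omega) (by omega) (by omega)
      have h5 : ((b0 - 12 : ℕ) : ℝ) = (b0 : ℝ) - 12 := by
        rw [Nat.cast_sub (by omega)]
        norm_num
      rw [h5] at h4
      have h6 : (X : ℝ) + 12 ≤ b0 := by exact_mod_cast h3
      have h7 := OSum_step (b := (b0 : ℝ)) (by linarith)
      rw [Real.log_div (by linarith) hX0.ne'] at h4
      rw [Real.log_div hb0.ne' hX0.ne']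
      linarith
    · have e1 : (Finset.Ico X (b0 + 1)).filter (fun b => b % 12 = c) = {b0} := by
        ext b
        simp only [Finset.mem_filter, Finset.mem_Ico, Finset.mem_singleton]
        omega
      rw [e1, Finset.sum_singleton]
      have h4 : (1 : ℝ) / b0 ≤ 1 / X := one_div_le_one_div_of_le hX0 hb
      have h5 : 0 ≤ Real.log (b0 / X) := Real.log_nonneg (by rw [le_div_iff₀ hX0]; linarith)
      linarith

theorem OSum_cl {X : ℕ} (hX : 1 ≤ X) {Y : ℝ} (hY : (X : ℝ) ≤ Y) (c : ℕ) :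
    ∑ b ∈ (Finset.Ico X ⌈Y⌉₊).filter (fun b => b % 12 = c), (1 / (b : ℝ)) ≤
      1 / X + Real.log (Y / X) / 12 := by
  have hX0 : (0 : ℝ) < X := by exact_mod_cast hX
  rcases ((Finset.Ico X ⌈Y⌉₊).filter (fun b => b % 12 = c)).eq_empty_or_nonempty with he | hne
  · rw [he, Finset.sum_empty]
    have h5 : 0 ≤ Real.log (Y / X) := Real.log_nonneg (by rw [le_div_iff₀ hX0]; linarith)
    positivity
  · obtain ⟨b0, hb0, hmax⟩ := Finset.exists_max_image _ (fun b => b) hne
    have h1 := Finset.mem_filter.1 hb0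
    have h2 := Finset.mem_Ico.1 h1.1
    have e1 : (Finset.Ico X ⌈Y⌉₊).filter (fun b => b % 12 = c) =
        (Finset.Ico X (b0 + 1)).filter (fun b => b % 12 = c) := by
      ext b
      constructor
      · intro hb
        have h3 := hmax b hb
        have h4 := Finset.mem_filter.1 hb
        have h5 := Finset.mem_Ico.1 h4.1
        exact Finset.mem_filter.2 ⟨Finset.mem_Ico.2 ⟨h5.1, Nat.lt_succ_of_le h3⟩, h4.2⟩
      · intro hb
        have h4 := Finset.mem_filter.1 hb
        have h5 := Finset.mem_Ico.1 h4.1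
        exact Finset.mem_filter.2 ⟨Finset.mem_Ico.2 ⟨h5.1, by omega⟩, h4.2⟩
    rw [e1]
    refine (OSum_class hX c b0 h2.1 h1.2).trans ?_
    have hb : (X : ℝ) ≤ b0 := by exact_mod_cast h2.1
    have hbY : (b0 : ℝ) < Y := Nat.lt_ceil.1 h2.2
    have h6 : Real.log (b0 / X) ≤ Real.log (Y / X) := by
      apply Real.log_le_log (div_pos (by linarith) hX0)
      gcongr
    linarith

theorem osum {X : ℕ} (hX : 1 ≤ X) {Y : ℝ} (hY : (X : ℝ) ≤ Y) :
    ∑ b ∈ (Finset.Ico X ⌈Y⌉₊).filter (fun b => b % 3 = 2 ∧ ¬ 4 ∣ b), (1 / (b : ℝ)) ≤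
      Real.log (Y / X) / 4 + 6 / X := by
  have hX0 : (0 : ℝ) < X := by exact_mod_cast hX
  have h1 : ∑ b ∈ (Finset.Ico X ⌈Y⌉₊).filter (fun b => b % 3 = 2 ∧ ¬ 4 ∣ b), (1 / (b : ℝ)) ≤
      ∑ b ∈ (Finset.Ico X ⌈Y⌉₊).filter (fun b => b % 12 = 2), (1 / (b : ℝ)) +
      ∑ b ∈ (Finset.Ico X ⌈Y⌉₊).filter (fun b => b % 12 = 5), (1 / (b : ℝ)) +
      ∑ b ∈ (Finset.Ico X ⌈Y⌉₊).filter (fun b => b % 12 = 11), (1 / (b : ℝ)) := by
    rw [Finset.sum_filter, Finset.sum_filter, Finset.sum_filter, Finset.sum_filter,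
      ← Finset.sum_add_distrib, ← Finset.sum_add_distrib]
    refine Finset.sum_le_sum fun b _ => ?_
    have hb : (0 : ℝ) ≤ 1 / (b : ℝ) := by positivity
    by_cases hp : b % 3 = 2 ∧ ¬ 4 ∣ b
    · rw [if_pos hp]
      have h3 : b % 12 = 2 ∨ b % 12 = 5 ∨ b % 12 = 11 := by omega
      rcases h3 with h | h | h <;> simp [h]
    · rw [if_neg hp]
      split_ifs <;> linarith
  have h2 := OSum_cl hX hY 2
  have h3 := OSum_cl hX hY 5
  have h4 := OSum_cl hX hY 11
  have h5 : (6 : ℝ) / X = 6 * (1 / X) := by ring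
  have h6 : (0 : ℝ) < 1 / X := by positivity
  rw [h5]
  linarith

end Pool.Agent.helper62.T2
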