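import Pool.Agent.helper62.T2.HitT
import Pool.Agent.helper82.PD.FinG

/-!
# T2-Comb: positive proportion (constant independent of `ε`) and almost all
-/

namespace Pool.Agent.helper62.T2

open Pool.Agent.helper14.EX1 Pool.Agent.helper41.Coll Finset

/-- `n` reaches `1`, has the typical number of circuits and the typical first hitting time of `1`. -/
def Tpl (ε : ℝ) (n : ℕ) : Prop :=
  (∃ c : ℕ, HasC n c ∧ |(c : ℝ) - Real.log n / Real.log (16 / 9)| ≤ ε * Real.log n) ∧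
    ∃ j : ℕ, f^[j] n = 1 ∧ (∀ i < j, f^[i] n ≠ 1) ∧
      |(j : ℝ) - 2 * Real.log n / Real.log (4 / 3)| ≤ ε * Real.log n

theorem Comb_card (x : ℕ) (P : ℕ → Prop) [DecidablePred P] :
    Nat.card {n : ℕ // 2 ≤ n ∧ n ≤ x ∧ P n} = ((Icc 2 x).filter P).card := by
  rw [← Nat.card_eq_finsetCard]
  refine Nat.card_congr (Equiv.subtypeEquivRight fun n => ?_)
  rw [mem_filter, mem_Icc, and_assoc]

theorem Comb_split {x : ℕ} {P Q R : ℕ → Prop} [DecidablePred P] [DecidablePred R] {B : ℝ}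
    (h : ∀ n, 2 ≤ n → P n → Q n ∨ R n) (hB : (((Icc 1 x).filter R).card : ℝ) ≤ B) :
    (((Icc 1 x).filter P).card : ℝ) ≤
      (Nat.card {n : ℕ // 2 ≤ n ∧ n ≤ x ∧ Q n} : ℝ) + B + 1 := by
  classical
  rw [Comb_card]
  have hsub : (Icc 1 x).filter P ⊆ ((Icc 2 x).filter Q ∪ (Icc 1 x).filter R) ∪ {1} := by
    intro n hn
    rw [mem_filter, mem_Icc] at hn
    rw [mem_union, mem_union, mem_filter, mem_filter, mem_singleton, mem_Icc, mem_Icc]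
    by_cases h1 : n = 1
    · exact Or.inr h1
    · rcases h n (by omega) hn.2 with h2 | h2
      · exact Or.inl (Or.inl ⟨⟨by omega, hn.1.2⟩, h2⟩)
      · exact Or.inl (Or.inr ⟨hn.1, h2⟩)
  have h1 := card_le_card hsub
  have h2 := card_union_le ((Icc 2 x).filter Q ∪ (Icc 1 x).filter R) {1}
  have h3 := card_union_le ((Icc 2 x).filter Q) ((Icc 1 x).filter R)
  rw [card_singleton] at h2
  have h4 : ((Icc 1 x).filter P).card ≤ ((Icc 2 x).filter Q).card + ((Icc 1 x).filter R).card + 1 := by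
    omega
  have h5 : (((Icc 1 x).filter P).card : ℝ) ≤
      (((Icc 2 x).filter Q).card : ℝ) + (((Icc 1 x).filter R).card : ℝ) + 1 := by exact_mod_cast h4
  linarith

theorem Comb_sub {x : ℕ} {P Q : ℕ → Prop} {_ : DecidablePred Q} {B : ℝ}
    (hB : (((Icc 1 x).filter Q).card : ℝ) ≤ B) (h : ∀ n, 2 ≤ n → P n → Q n) :
    (Nat.card {n : ℕ // 2 ≤ n ∧ n ≤ x ∧ P n} : ℝ) ≤ B := by
  classical
  refine le_trans ?_ hB
  rw [Comb_card]
  have hsub : (Icc 2 x).filter P ⊆ (Icc 1 x).filter Q := by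
    intro n hn
    rw [mem_filter, mem_Icc] at hn
    rw [mem_filter, mem_Icc]
    exact ⟨⟨by omega, hn.1.2⟩, h n hn.1.1 hn.2⟩
  exact_mod_cast card_le_card hsub

theorem comb_positive {m : ℕ} (hm : 1 ≤ m) (h3 : ¬ 3 ∣ m) : ∃ c : ℝ, 0 < c ∧
    (∀ᶠ x : ℕ in Filter.atTop, c * x ≤ (Nat.card {n : ℕ // 2 ≤ n ∧ n ≤ x ∧ ∃ i, f^[i] n = m} : ℝ)) ∧
    ((∃ i, f^[i] m = 1) → ∀ ε : ℝ, 0 < ε → ∀ᶠ x : ℕ in Filter.atTop,
      c * x ≤ (Nat.card {n : ℕ // 2 ≤ n ∧ n ≤ x ∧ (∃ i, f^[i] n = m) ∧ Tpl ε n} : ℝ)) := by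
  classical
  obtain ⟨c, x0, hc, hx0⟩ := Pool.Agent.helper82.PD.FinG_main hm h3 (ε := 1 / 2) (by norm_num) (by norm_num)
  refine ⟨c / 4, by positivity, ?_, ?_⟩
  · filter_upwards [Filter.eventually_ge_atTop ⌈x0⌉₊, Filter.eventually_ge_atTop ⌈2 / c⌉₊] with x h1 h2
    obtain ⟨h4, h5⟩ := hx0 (x : ℝ) (Nat.ceil_le.1 h1)
    rw [Nat.floor_natCast] at h5
    have h6 : 2 / c ≤ x := Nat.ceil_le.1 h2
    rw [div_le_iff₀ hc] at h6
    have h9 := h5.trans (Comb_split (Q := fun n => ∃ i, f^[i] n = m) (R := fun _ => False) (B := 0)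
      (fun n _ hn => Or.inl hn.1) (by simp))
    linarith
  · intro h1 ε hε
    obtain ⟨X1, hX1⟩ := almost_all2 hε (show 0 < c / 4 by positivity)
    filter_upwards [Filter.eventually_ge_atTop ⌈x0⌉₊, Filter.eventually_ge_atTop ⌈2 / c⌉₊,
      Filter.eventually_ge_atTop X1] with x hx1 hx2 hx3
    obtain ⟨h4, h5⟩ := hx0 (x : ℝ) (Nat.ceil_le.1 hx1)
    rw [Nat.floor_natCast] at h5
    have h6 : 2 / c ≤ x := Nat.ceil_le.1 hx2
    rw [div_le_iff₀ hc] at h6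
    have h9 := h5.trans (Comb_split (Q := fun n => (∃ i, f^[i] n = m) ∧ Tpl ε n) (by
        intro n _ hn
        by_cases ht : Tpl ε n
        · exact Or.inl ⟨hn.1, ht⟩
        · refine Or.inr ⟨?_, ht⟩
          obtain ⟨i, hi⟩ := hn.1
          obtain ⟨i', hi'⟩ := h1
          exact ⟨i' + i, by rw [Function.iterate_add_apply, hi, hi']⟩) (hX1 x hx3))
    linarith

theorem comb_almost {ε δ : ℝ} (hε : 0 < ε) (hδ : 0 < δ) : ∀ᶠ x : ℕ in Filter.atTop,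
    (Nat.card {n : ℕ // 2 ≤ n ∧ n ≤ x ∧ (∃ i, f^[i] n = 1) ∧ ¬ Tpl ε n} : ℝ) ≤ δ * x := by
  obtain ⟨X1, hX1⟩ := almost_all2 hε hδ
  filter_upwards [Filter.eventually_ge_atTop X1] with x hx
  exact Comb_sub (hX1 x hx) (fun n _ hn => hn)

theorem comb_down {ε δ : ℝ} (hε : 0 < ε) (hδ : 0 < δ) : ∃ Z : ℕ, ∀ᶠ x : ℕ in Filter.atTop,
    (Nat.card {n : ℕ // 2 ≤ n ∧ n ≤ x ∧ ¬ ∃ t : ℕ, f^[t] n < Z ∧
      |(t : ℝ) - 2 * Real.log n / Real.log (4 / 3)| ≤ ε * Real.log n} : ℝ) ≤ δ * x := by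
  obtain ⟨Z, X1, hX1⟩ := down_all hε hδ
  refine ⟨Z, ?_⟩
  filter_upwards [Filter.eventually_ge_atTop X1] with x hx
  refine Comb_sub (hX1 x hx) (fun n _ hn => ?_)
  rintro ⟨t, _, ht2, ht3⟩
  exact hn ⟨t, ht2, ht3⟩

end Pool.Agent.helper62.T2
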