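import Pool.Agent.helper14.EX1.Defs2

/-!
# T2-Defs: first passage words, good words

An integer `x` stands for the node `a = 3 x + 2`.  `FP Z x v`: the root `x` is a node below `Z` which is not divisible
by `4`, the word `v` is allowed at `x`, and all nodes after at least one letter are at least `Z` (so the root is the
first node below `Z` on the forward trajectory of the end of the word).
-/

namespace Pool.Agent.helper62.T2

open Pool.Agent.helper14.EX1 Finset

/-- First passage words. -/
def FP (Z x : ℤ) (v : List ℕ) : Prop :=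
  0 ≤ x ∧ ¬ (4 : ℤ) ∣ 3 * x + 2 ∧ 3 * x + 2 < Z ∧ v ≠ [] ∧ (∀ k ∈ v, 1 ≤ k) ∧ Ala x v ∧
    ∀ i, 1 ≤ i → i ≤ v.length → Z ≤ 3 * nd x (v.take i) + 2

/-- All prefixes of length at least `i0` are typical. -/
def Gd (e : ℝ) (i0 : ℕ) (v : List ℕ) : Prop := ∀ i, i0 ≤ i → i ≤ v.length → Typ e (v.take i)

end Pool.Agent.helper62.T2
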