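import Pool.Agent.helper62.T2.Api
import Pool.Agent.helper14.EX1.Nod
import Pool.Agent.helper14.EX1.Cir2

/-!
# T2-HasT: circuits of an integer which ends a first passage word

All nodes after at least one letter are `≥ Z ≥ 3` (because `2 ≤ 3 x + 2 < Z`), so no step passes through `1` or `2`.  With
`z = (3 x + 2).toNat`: `f^[v.sum] b = z` (`Cir_stepF` for each letter, from the right; as `Cir2_five`), and for the first odd terms the
invariant of `Cir2_inv` with the root `z` instead of `5` (`z = 2 ^ e0 o0`, `o0` odd, `Circuits o0 c0`; if `o0 = 1` then `e0 ≥ 1`):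
`Rw v + c0 ≤ C(b) ≤ Rw v + c0 + 1`.  `C(4 ^ j b) = C(b)`, `f m = 4 ^ j b`, `m ≠ 1` (else `4 ^ j b = 2`, `b ≤ 2 < Z`), `C(f m) ≤ C(m) ≤ C(f m) + 1`
(the two cases of `Cir_odd`), `C(2 ^ i m) = C(m)`.  `HasC n c` gives that `n` reaches `1`, so `z` reaches `1` (`f^[t] n = z ≥ 2`, and an orbit stays at
`1`), `exists_hasC` gives `c0`, and `hasC_unique`.
-/

namespace Pool.Agent.helper62.T2

open Pool.Agent.helper14.EX1 Pool.Agent.helper41.Coll

/-- The part of `FP` which passes to all prefixes. -/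
def HasT_pre (Z x : ℤ) (v : List ℕ) : Prop :=
  0 ≤ x ∧ 3 ≤ Z ∧ (∀ k ∈ v, 1 ≤ k) ∧ Ala x v ∧
    ∀ i, 1 ≤ i → i ≤ v.length → Z ≤ 3 * nd x (v.take i) + 2

theorem HasT_of {Z x : ℤ} {v : List ℕ} (h : FP Z x v) : HasT_pre Z x v := by
  obtain ⟨h1, _, h3, _, h5, h6, h7⟩ := h
  exact ⟨h1, by omega, h5, h6, h7⟩

/-- The data of the last step. -/
theorem HasT_snoc {Z x : ℤ} {v : List ℕ} {k : ℕ} (h : HasT_pre Z x (v ++ [k])) :
    HasT_pre Z x v ∧ 1 ≤ k ∧
      3 * (3 * nd x (v ++ [k]) + 2).toNat + (if k % 2 = 1 then 1 else 2) =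
        2 ^ k * (3 * nd x v + 2).toNat ∧
      (3 * nd x (v ++ [k]) + 2).toNat ≠ 1 ∧ (3 * nd x (v ++ [k]) + 2).toNat ≠ 2 := by
  obtain ⟨h0, hZ, hv, ha, hn⟩ := h
  have hv1 : ∀ i ∈ v, 1 ≤ i := fun i hi => hv i (List.mem_append_left _ hi)
  have hk : 1 ≤ k := hv k (by simp)
  have h1 := (ala_append x v [k]).1 ha
  have h2 : Al k (nd x v) := h1.2.1
  have h3 : nd x (v ++ [k]) = Tk k (nd x v) := nd_append x v [k]
  have h4 := Tk_node hk h2
  have h5 : 0 ≤ nd x v := nd_nn h0 hv1 h1.1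
  have h6 : 0 ≤ nd x (v ++ [k]) := nd_nn h0 hv ha
  have h7 : Z ≤ 3 * nd x (v ++ [k]) + 2 := by
    have := hn (v ++ [k]).length (by simp) le_rfl
    rwa [List.take_length] at this
  rw [← h3] at h4
  refine ⟨⟨h0, hZ, hv1, h1.1, ?_⟩, hk, ?_, ?_, ?_⟩
  · intro i hi1 hi2
    have := hn i hi1 (by rw [List.length_append]; omega)
    rwa [List.take_append_of_le_length hi2] at this
  · obtain ⟨a, ha'⟩ := Int.eq_ofNat_of_zero_le h6
    obtain ⟨b, hb⟩ := Int.eq_ofNat_of_zero_le h5
    rw [ha', hb] at h4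
    rw [ha', hb]
    have e1 : (3 * (a : ℤ) + 2).toNat = 3 * a + 2 := by omega
    have e2 : (3 * (b : ℤ) + 2).toNat = 3 * b + 2 := by omega
    rw [e1, e2]
    have h8 : (3 * (3 * (a : ℤ) + 2) + (if k % 2 = 1 then 1 else 2)) = 2 ^ k * (3 * (b : ℤ) + 2) := by
      linarith
    by_cases hk2 : k % 2 = 1
    · rw [if_pos hk2] at h8 ⊢
      exact_mod_cast h8
    · rw [if_neg hk2] at h8 ⊢
      exact_mod_cast h8
  · omega
  · omega

theorem HasT_iter {Z x : ℤ} {v : List ℕ} (h : HasT_pre Z x v) :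
    f^[v.sum] (3 * nd x v + 2).toNat = (3 * x + 2).toNat := by
  induction v using List.reverseRecOn with
  | nil => rfl
  | append_singleton v k ih =>
    obtain ⟨h1, h3, h4, h5, h6⟩ := HasT_snoc h
    rw [List.sum_append, List.sum_singleton, Function.iterate_add_apply, Cir_stepF h3 h4 h5 h6,
      ih h1]

/-- The invariant: `o` is the first odd term of the node, `e` the number of even terms before it. -/
theorem HasT_inv {Z x : ℤ} {v : List ℕ} (h : HasT_pre Z x v) {o0 c0 e0 : ℕ} (hc0 : Circuits o0 c0)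
    (ho0 : Odd o0) (hz : (3 * x + 2).toNat = 2 ^ e0 * o0) (he0 : e0 ≤ 1) (h1 : o0 = 1 → e0 = 1) :
    ∃ o c e : ℕ, Circuits o c ∧ (o = 1 → e = 1) ∧ Odd o ∧ (3 * nd x v + 2).toNat = 2 ^ e * o ∧
      e ≤ 1 ∧ (v = [] → c = c0) ∧
      (∀ u k, v = u ++ [k] → (k % 2 = 1 → e = 0) ∧ (k % 2 = 0 → e = 1)) ∧
      Rw v + c0 ≤ c ∧ c ≤ Rw v + c0 + 1 := by
  induction v using List.reverseRecOn with
  | nil =>
    refine ⟨o0, c0, e0, hc0, h1, ho0, hz, he0, fun _ => rfl, ?_, by simp [Rw], by simp [Rw]⟩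
    intro u k hu
    exact absurd hu (by simp)
  | append_singleton v k ih =>
    obtain ⟨h2, h3, h4, h5, h6⟩ := HasT_snoc h
    obtain ⟨o, c, e, hc, ho1, hoo, hn, he, hnil, hlast, hlo, hhi⟩ := ih h2
    -- the new odd term
    obtain ⟨o', e', j, ho', ho1', hf, hn', he', hp1, hp2, hj⟩ :
        ∃ o' e' j : ℕ, Odd o' ∧ o' ≠ 1 ∧ f o' = 2 ^ (j + e) * o ∧
          (3 * nd x (v ++ [k]) + 2).toNat = 2 ^ e' * o' ∧ e' ≤ 1 ∧ (k % 2 = 1 → e' = 0) ∧
          (k % 2 = 0 → e' = 1) ∧ (j = 0 ↔ k ≤ 2) := by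
      rcases Cir2_cases h3 h4 with ⟨j, hk2, rfl, e1⟩ | ⟨j, m, hk2, rfl, ha, e1⟩
      · refine ⟨(3 * nd x (v ++ [j + 1]) + 2).toNat, 0, j, Nat.odd_iff.2 ?_, h5, ?_, by simp,
          by norm_num, fun _ => rfl, fun h0 => by omega, by omega⟩
        · generalize 2 ^ j * (3 * nd x v + 2).toNat = d at e1
          omega
        · rw [Cir_f_odd h5 e1, hn, pow_add]
          ring
      · have hm : m ≠ 1 := by
          intro h0
          rw [h0] at ha
          exact h6 (by omega)
        refine ⟨m, 1, j, Nat.odd_iff.2 ?_, hm, ?_, by rw [ha]; ring,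
          le_rfl, fun h0 => by omega, fun _ => rfl, by omega⟩
        · generalize 2 ^ j * (3 * nd x v + 2).toNat = d at e1
          omega
        · rw [Cir_f_odd hm e1, hn, pow_add]
          ring
    have hlast' : ∀ u k', v ++ [k] = u ++ [k'] → (k' % 2 = 1 → e' = 0) ∧ (k' % 2 = 0 → e' = 1) := by
      intro u k' hu
      have hk' : k = k' := by
        have := List.append_inj_right' hu rfl
        simpa using this
      subst hk'
      exact ⟨hp1, hp2⟩
    have hnew : o' = 1 → e' = 1 := fun h0 => absurd h0 ho1'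
    rcases Nat.eq_zero_or_pos (j + e) with hs | hs
    · -- the same circuit
      have hj0 : j = 0 := by omega
      have he1 : e = 0 := by omega
      have hk := hj.1 hj0
      have hone : o ≠ 1 := fun h0 => by
        have := ho1 h0
        omega
      subst hj0
      subst he1
      rw [show 2 ^ (0 + 0) * o = o by ring] at hf
      refine ⟨o', c, e', Cir2_same ho' ho1' hf hone hc, hnew, ho', hn', he',
        fun h0 => absurd h0 (by simp), hlast', ?_⟩
      rcases List.eq_nil_or_concat v with hv0 | ⟨u, k0, hv0⟩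
      · subst hv0
        have hR : Rw ([] ++ [k]) = 0 := rfl
        have := hnil rfl
        omega
      · rw [List.concat_eq_append] at hv0
        subst hv0
        obtain ⟨q1, q2⟩ := hlast u k0 rfl
        have hR := Cir2_Rw u k0 k
        have hodd : k0 % 2 = 1 := by
          rcases Nat.mod_two_eq_zero_or_one k0 with h8 | h8
          · have := q2 h8
            omega
          · exact h8
        have hr : rr k0 k = 0 := by
          unfold rr
          rw [if_pos ⟨hk, hodd⟩]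
        rw [hr] at hR
        omega
    · -- a new circuit
      refine ⟨o', c + 1, e', Cir2_new ho' ho1' hf hs hoo hc, hnew, ho', hn', he',
        fun h0 => absurd h0 (by simp), hlast', ?_⟩
      rcases List.eq_nil_or_concat v with hv0 | ⟨u, k0, hv0⟩
      · subst hv0
        have hR : Rw ([] ++ [k]) = 0 := rfl
        have := hnil rfl
        omega
      · rw [List.concat_eq_append] at hv0
        subst hv0
        obtain ⟨q1, q2⟩ := hlast u k0 rfl
        have hR := Cir2_Rw u k0 k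
        have hr : rr k0 k = 1 := by
          unfold rr
          rw [if_neg]
          rintro ⟨h8, h9⟩
          have := q1 h9
          have := hj.2 h8
          omega
        rw [hr] at hR
        omega

/-- The number of circuits of `2 ^ e * o`. -/
theorem HasT_pow {o c : ℕ} (ho : Odd o) (hc : Circuits o c) (e : ℕ) : HasC (2 ^ e * o) c :=
  Cir_pow ⟨0, fun i hi => absurd hi (Nat.not_lt_zero i), ho, hc⟩ e

/-- The first odd term of a number which is not divisible by `4`. -/
theorem HasT_split {z c0 : ℕ} (h4 : ¬ 4 ∣ z) (h : HasC z c0) :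
    ∃ e0 o0 : ℕ, Circuits o0 c0 ∧ Odd o0 ∧ z = 2 ^ e0 * o0 ∧ e0 ≤ 1 := by
  obtain ⟨j, h1, h2, h3⟩ := h
  rcases Nat.even_or_odd z with hev | hod
  · obtain ⟨o, ho⟩ := hev
    have hz2 : z = 2 * o := by omega
    have hoo : Odd o := by
      rcases Nat.even_or_odd o with ⟨r, hr⟩ | h5
      · exact absurd ⟨r, by omega⟩ h4
      · exact h5
    have hfz : f z = o := by rw [hz2, Cir_f_double]
    have hj : j = 1 := by
      rcases Nat.lt_or_ge j 1 with h6 | h6
      · have h7 : j = 0 := by omega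
        subst h7
        exfalso
        rw [Function.iterate_zero_apply] at h2
        exact (Nat.not_even_iff_odd.2 h2) ⟨o, ho⟩
      · rcases Nat.lt_or_ge 1 j with h8 | h8
        · exfalso
          have h9 := h1 1 h8
          rw [Function.iterate_one, hfz] at h9
          exact (Nat.not_even_iff_odd.2 hoo) h9
        · omega
    subst hj
    rw [Function.iterate_one, hfz] at h3
    exact ⟨1, o, h3, hoo, by omega, le_rfl⟩
  · have hj : j = 0 := by
      rcases Nat.eq_zero_or_pos j with h6 | h6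
      · exact h6
      · exfalso
        have h9 := h1 0 h6
        rw [Function.iterate_zero_apply] at h9
        exact (Nat.not_even_iff_odd.2 hod) h9
    subst hj
    rw [Function.iterate_zero_apply] at h3
    exact ⟨0, z, h3, hod, by omega, by norm_num⟩

/-- Two-sided version of `Cir_odd`. -/
theorem HasT_odd {n c : ℕ} (hn : Odd n) (hn1 : n ≠ 1) (h : HasC (f n) c) :
    ∃ c', HasC n c' ∧ c ≤ c' ∧ c' ≤ c + 1 := by
  obtain ⟨j, h1, h2, h3⟩ := h
  rcases Nat.eq_zero_or_pos j with hj | hj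
  · subst hj
    rw [Function.iterate_zero_apply] at h2 h3
    have hf1 : f n ≠ 1 := fun h4 => (Nat.not_even_iff_odd.2 hn) (f_eq_one h4 hn1)
    exact ⟨c, ⟨0, fun i hi => absurd hi (Nat.not_lt_zero i), hn, Cir2_same hn hn1 rfl hf1 h3⟩,
      le_rfl, by omega⟩
  · refine ⟨c + 1, ⟨0, fun i hi => absurd hi (Nat.not_lt_zero i), hn,
      Circuits.step hn1 ⟨1, j, le_rfl, hj, ?_, ?_, h2, ?_⟩ h3⟩, by omega, le_rfl⟩
    · intro i hi
      have h0 : i = 0 := by omega
      subst h0
      exact hn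
    · intro i hi1 hi2
      cases i with
      | zero => omega
      | succ i =>
        rw [Function.iterate_zero_apply, Function.iterate_succ_apply]
        exact h1 i (by omega)
    · rw [Function.iterate_zero_apply, show 1 + j = j + 1 by omega, Function.iterate_succ_apply]

theorem HasT_circ_reach {m c : ℕ} (h : Circuits m c) : ∃ t, f^[t] m = 1 := by
  induction h with
  | one => exact ⟨0, rfl⟩
  | step h1 h2 _ ih =>
    obtain ⟨k, l, _, _, _, _, _, h3⟩ := h2
    obtain ⟨t, ht⟩ := ih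
    exact ⟨t + (k + l), by rw [Function.iterate_add_apply, h3, ht]⟩

theorem HasT_reach {n c : ℕ} (h : HasC n c) : ∃ t, f^[t] n = 1 := by
  obtain ⟨j, _, _, h3⟩ := h
  obtain ⟨t, ht⟩ := HasT_circ_reach h3
  exact ⟨t + j, by rw [Function.iterate_add_apply, ht]⟩

/-- The end of a first passage word comes down to its root. -/
theorem fp_iter {Z x : ℤ} {v : List ℕ} (h : FP Z x v) :
    f^[v.sum] (3 * nd x v + 2).toNat = (3 * x + 2).toNat :=
  HasT_iter (HasT_of h)

/-- Circuits of the end of a first passage word. -/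
theorem fp_circ {Z x : ℤ} {v : List ℕ} (h : FP Z x v) {c0 : ℕ} (h0 : HasC (3 * x + 2).toNat c0) :
    ∃ c : ℕ, HasC (3 * nd x v + 2).toNat c ∧ Rw v + c0 ≤ c ∧ c ≤ Rw v + c0 + 1 := by
  have hx := h.1
  have h4 : ¬ 4 ∣ (3 * x + 2).toNat := by
    intro h5
    apply h.2.1
    have h6 : ((3 * x + 2).toNat : ℤ) = 3 * x + 2 := Int.toNat_of_nonneg (by omega)
    rw [← h6]
    exact_mod_cast h5
  obtain ⟨e0, o0, h5, h6, h7, h8⟩ := HasT_split h4 h0
  have h9 : o0 = 1 → e0 = 1 := by
    intro h10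
    rw [h10, mul_one] at h7
    rcases Nat.lt_or_ge e0 1 with h11 | h11
    · have h12 : e0 = 0 := by omega
      rw [h12, pow_zero] at h7
      omega
    · omega
  obtain ⟨o, c, e, hc, _, hoo, hn, _, _, _, hlo, hhi⟩ := HasT_inv (HasT_of h) h5 h6 h7 h8 h9
  exact ⟨c, by rw [hn]; exact HasT_pow hoo hc e, hlo, hhi⟩

theorem hasT {Z x : ℤ} {v : List ℕ} (h : FP Z x v) {i j m b n c : ℕ} (hn : n = 2 ^ i * m) (hm : Odd m)
    (h3 : 3 * m + 1 = 2 * 4 ^ j * b) (hb : 3 * nd x v + 2 = (b : ℤ)) (hc : HasC n c) :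
    ∃ c0 : ℕ, HasC (3 * x + 2).toNat c0 ∧ Rw v + c0 ≤ c ∧ c ≤ Rw v + c0 + 2 := by
  have hx := h.1
  have hbn : (3 * nd x v + 2).toNat = b := by rw [hb]; exact Int.toNat_natCast b
  have hb3 : 3 ≤ b := by
    obtain ⟨_, _, h5, h6, _, _, h7⟩ := h
    have hl : 1 ≤ v.length := List.length_pos_iff.2 h6
    have h8 := h7 v.length hl le_rfl
    rw [List.take_length, hb] at h8
    omega
  have hm1 : m ≠ 1 := by
    intro h5
    rw [h5] at h3
    have h6 : 1 ≤ 4 ^ j := Nat.one_le_pow _ _ (by norm_num)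
    have h7 : 4 ^ j * 3 ≤ 4 ^ j * b := Nat.mul_le_mul_left _ hb3
    have h8 : 2 * 4 ^ j * b = 2 * (4 ^ j * b) := by ring
    rw [h8] at h3
    omega
  have hfm : f m = 2 ^ (2 * j) * b := by
    refine Cir_f_odd hm1 ?_
    rw [h3, pow_mul]
    norm_num
    ring
  have it := fp_iter h
  rw [hbn] at it
  -- the trajectory of `n` passes through the root
  have hS : f^[v.sum + (2 * j + (1 + i))] n = (3 * x + 2).toNat := by
    rw [Function.iterate_add_apply, Function.iterate_add_apply, Function.iterate_add_apply, hn,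
      Cir_iter_pow, Function.iterate_one, hfm, Cir_iter_pow, it]
  obtain ⟨T, hT⟩ := HasT_reach hc
  obtain ⟨c0, hc0⟩ : ∃ c0, HasC (3 * x + 2).toNat c0 := by
    rcases Nat.lt_or_ge T (v.sum + (2 * j + (1 + i))) with h5 | h5
    · exfalso
      obtain ⟨r, hr⟩ : ∃ r, v.sum + (2 * j + (1 + i)) = r + T :=
        ⟨v.sum + (2 * j + (1 + i)) - T, by omega⟩
      rw [hr, Function.iterate_add_apply, hT, Cir2_iter_one] at hS
      omega
    · obtain ⟨r, hr⟩ : ∃ r, T = r + (v.sum + (2 * j + (1 + i))) :=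
        ⟨T - (v.sum + (2 * j + (1 + i))), by omega⟩
      rw [hr, Function.iterate_add_apply, hS] at hT
      exact exists_hasC hT
  obtain ⟨cb, h5, h6, h7⟩ := fp_circ h hc0
  rw [hbn] at h5
  obtain ⟨c', h8, h9, h10⟩ := HasT_odd hm hm1 (c := cb) (by rw [hfm]; exact Cir_pow h5 _)
  have h11 : HasC n c' := by rw [hn]; exact Cir_pow h8 i
  have h12 := hasC_unique hc h11
  exact ⟨c0, hc0, by omega, by omega⟩

end Pool.Agent.helper62.T2
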