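import Pool.Agent.helper62.T2.Api
import Pool.Agent.helper14.EX1.Nod

/-!
# T2-SizT: the size of the end of a first passage word

Upper bound: `nd_le`.  Lower bound: for a letter `k` from the node `b` to the child `a ≥ Z`: `3 a + c = 2 ^ k b`, `c ≤ 2`, so
`2 ^ k b ≤ 3 a (1 + 2/(3 Z)) ≤ 3 a (1 + 1/Z)`; induction from the right.
-/

namespace Pool.Agent.helper62.T2

open Pool.Agent.helper14.EX1

theorem siz_up {Z x : ℤ} {v : List ℕ} (h : FP Z x v) :
    (3 : ℝ) ^ v.length * (3 * (nd x v : ℝ) + 2) ≤ 2 ^ v.sum * Z := by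
  obtain ⟨h0, h4, hZ, hv, h1, ha, hn⟩ := h
  have h2 := nd_le h1 ha
  have h3 : (2 : ℤ) ^ v.sum * (3 * x + 2) ≤ 2 ^ v.sum * Z :=
    mul_le_mul_of_nonneg_left hZ.le (by positivity)
  have h5 := h2.trans h3
  exact_mod_cast h5

/-- The lower bound along a word which stays above `Z`. -/
theorem SizT_aux {Z x : ℤ} {v : List ℕ} (hZ : 0 < Z) (h1 : ∀ k ∈ v, 1 ≤ k) (ha : Ala x v)
    (hn : ∀ i, 1 ≤ i → i ≤ v.length → Z ≤ 3 * nd x (v.take i) + 2) :
    (2 : ℝ) ^ v.sum * (3 * (x : ℝ) + 2) ≤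
      (3 : ℝ) ^ v.length * (3 * (nd x v : ℝ) + 2) * (1 + 1 / (Z : ℝ)) ^ v.length := by
  induction v using List.reverseRecOn with
  | nil => simp [nd]
  | append_singleton u k ih =>
    rw [ala_append] at ha
    have hk : 1 ≤ k := h1 k (by simp)
    have hi := ih (fun j hj => h1 j (by simp [hj])) ha.1 (fun i hi hi' => by
      have h2 := hn i hi (by simp; omega)
      rwa [List.take_append_of_le_length hi'] at h2)
    have hZr : (0 : ℝ) < Z := by exact_mod_cast hZ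
    have hend := hn (u ++ [k]).length (by simp) le_rfl
    rw [List.take_length] at hend
    have e1 : nd x (u ++ [k]) = Tk k (nd x u) := by
      rw [nd_append]
      rfl
    rw [e1] at hend ⊢
    have hs := (Nod_step hk ha.2.1).2
    obtain ⟨a, hadef⟩ : ∃ a, 3 * Tk k (nd x u) + 2 = a := ⟨_, rfl⟩
    obtain ⟨b, hbdef⟩ : ∃ b, 3 * nd x u + 2 = b := ⟨_, rfl⟩
    rw [hadef] at hs hend
    rw [hbdef] at hs
    have har : (3 : ℝ) * (Tk k (nd x u) : ℝ) + 2 = a := by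
      rw [← hadef]
      push_cast
      ring
    have hbr : (3 : ℝ) * (nd x u : ℝ) + 2 = b := by
      rw [← hbdef]
      push_cast
      ring
    rw [har]
    rw [hbr] at hi
    have hsr : (2 : ℝ) ^ k * b ≤ 3 * a + 2 := by
      have : (2 : ℤ) ^ k * b ≤ 3 * a + 2 := by linarith
      exact_mod_cast this
    have har2 : (Z : ℝ) ≤ a := by exact_mod_cast hend
    have hstep : (2 : ℝ) ^ k * b ≤ 3 * a * (1 + 1 / (Z : ℝ)) := by
      have h3 : (1 : ℝ) ≤ a * (1 / (Z : ℝ)) := by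
        rw [mul_one_div, le_div_iff₀ hZr]
        linarith
      nlinarith
    rw [List.sum_append, List.length_append, pow_add, List.sum_singleton, List.length_singleton,
      pow_add, pow_add, pow_one, pow_one]
    have hq : (0 : ℝ) ≤ (3 : ℝ) ^ u.length * (1 + 1 / (Z : ℝ)) ^ u.length := by positivity
    calc (2 : ℝ) ^ u.sum * 2 ^ k * (3 * (x : ℝ) + 2) =
        2 ^ k * (2 ^ u.sum * (3 * (x : ℝ) + 2)) := by ring
      _ ≤ 2 ^ k * ((3 : ℝ) ^ u.length * b * (1 + 1 / (Z : ℝ)) ^ u.length) :=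
        mul_le_mul_of_nonneg_left hi (by positivity)
      _ = ((3 : ℝ) ^ u.length * (1 + 1 / (Z : ℝ)) ^ u.length) * (2 ^ k * b) := by ring
      _ ≤ ((3 : ℝ) ^ u.length * (1 + 1 / (Z : ℝ)) ^ u.length) * (3 * a * (1 + 1 / (Z : ℝ))) :=
        mul_le_mul_of_nonneg_left hstep hq
      _ = (3 : ℝ) ^ u.length * 3 * a * ((1 + 1 / (Z : ℝ)) ^ u.length * (1 + 1 / (Z : ℝ))) := by ring

theorem siz_low {Z x : ℤ} {v : List ℕ} (h : FP Z x v) :
    (2 : ℝ) ^ v.sum ≤ (3 : ℝ) ^ v.length * (3 * (nd x v : ℝ) + 2) * (1 + 1 / (Z : ℝ)) ^ v.length := by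
  obtain ⟨h0, h4, hZ, hv, h1, ha, hn⟩ := h
  have h2 := SizT_aux (by omega) h1 ha hn
  refine le_trans ?_ h2
  have h3 : (0 : ℝ) ≤ x := by exact_mod_cast h0
  have h5 : (0 : ℝ) < 2 ^ v.sum := by positivity
  nlinarith

end Pool.Agent.helper62.T2
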