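import Pool.Agent.helper62.T2.AllN
import Pool.Agent.helper62.T2.HasT
import Pool.Agent.helper62.T2.SizT

/-!
# T2-FinT: almost all integers which reach `1`

Given `ε` take `e = e(ε)` small, `Z1 = ⌈1/e⌉`, `allN` with `δ/2`: `Z, J, X0`.  `C0` = the maximum of the `c0` with `HasC z c0`, `z < Z` (a finite set).
For `n ≤ X` with `Rep J e Z n`, `HasC n c`, `n ≥ δ X / 4` (so `n` is large): `hasT` gives `|c - Rw v| ≤ C0 + 2`; `Typ e v`:
`|Rw v - ℓ/2| ≤ e ℓ`, `|sum - 2 ℓ| ≤ e ℓ`, `ℓ = v.length`; `siz_up`, `siz_low`, `log (1 + 1/Z) ≤ e`: `|log b - ℓ log(4/3)| ≤ 2 e ℓ + log Z`;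
`n = 2^i m`, `3 m + 1 = 2 4^j b`: `|log n - log b| ≤ (i + 2 j + 2) log 2 ≤ (2 J + 2) log 2`.  So `ℓ ≤ 4 log n + C` and
`|c - log n / log(16/9)| ≤ 20 e ℓ + C' ≤ ε log n` (`log (16/9) = 2 log (4/3)`, `log (4/3) > 0.28`).
-/

namespace Pool.Agent.helper62.T2

open Pool.Agent.helper14.EX1 Pool.Agent.helper41.Coll Finset

/-- The numbers of circuits of the roots are bounded. -/
theorem FinT_bound (N : ℕ) : ∃ C0 : ℕ, ∀ z : ℕ, z < N → ∀ c0 : ℕ, HasC z c0 → c0 ≤ C0 := by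
  induction N with
  | zero => exact ⟨0, fun z hz => absurd hz (Nat.not_lt_zero z)⟩
  | succ N ih =>
    obtain ⟨C, hC⟩ := ih
    by_cases h : ∃ c1, HasC N c1
    · obtain ⟨c1, hc1⟩ := h
      refine ⟨max C c1, fun z hz c0 h0 => ?_⟩
      rcases Nat.lt_succ_iff_lt_or_eq.1 hz with h | h
      · exact (hC z h c0 h0).trans (le_max_left _ _)
      · subst h
        rw [hasC_unique h0 hc1]; exact le_max_right _ _
    · refine ⟨C, fun z hz c0 h0 => ?_⟩
      rcases Nat.lt_succ_iff_lt_or_eq.1 hz with h' | h'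
      · exact hC z h' c0 h0
      · subst h'; exact absurd ⟨c0, h0⟩ h

theorem FinT_log43 : (1 : ℝ) / 4 ≤ Real.log (4 / 3) := by
  have h := Real.one_sub_inv_le_log_of_pos (show (0 : ℝ) < 4 / 3 by norm_num)
  have : (1 : ℝ) - (4 / 3)⁻¹ = 1 / 4 := by norm_num
  linarith

theorem FinT_log169 : Real.log (16 / 9) = 2 * Real.log (4 / 3) := by
  rw [show (16 / 9 : ℝ) = (4 / 3) ^ 2 by norm_num, Real.log_pow]; norm_num

theorem FinT_log2 : Real.log 2 ≤ 1 := by
  have := Real.log_two_lt_d9; linarith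

theorem FinT_log43' : Real.log (4 / 3) = 2 * Real.log 2 - Real.log 3 := by
  rw [Real.log_div (by norm_num) (by norm_num), show (4 : ℝ) = 2 ^ 2 by norm_num, Real.log_pow]
  norm_num

/-- The size of the end of the word. -/
theorem FinT_size {e : ℝ} (he : 0 < e) {Z x : ℤ} (hZ : 1 ≤ e * (Z : ℝ)) (hZ0 : 0 < Z) {v : List ℕ}
    (h : FP Z x v) (ht : Typ e v) {b : ℕ} (hb : 3 * nd x v + 2 = (b : ℤ)) (hb0 : 0 < b) :
    |Real.log b - v.length * Real.log (4 / 3)| ≤ 2 * e * v.length + Real.log Z := by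
  have hZr : (0 : ℝ) < (Z : ℝ) := by exact_mod_cast hZ0
  have hbr : (0 : ℝ) < (b : ℝ) := by exact_mod_cast hb0
  have hbe : 3 * (nd x v : ℝ) + 2 = (b : ℝ) := by exact_mod_cast hb
  have h1 := siz_up h
  have h2 := siz_low h
  rw [hbe] at h1 h2
  have l1 : v.length * Real.log 3 + Real.log b ≤ v.sum * Real.log 2 + Real.log Z := by
    have := Real.log_le_log (by positivity) h1
    rw [Real.log_mul (by positivity) hbr.ne', Real.log_mul (by positivity) hZr.ne', Real.log_pow,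
      Real.log_pow] at this
    exact this
  have l2 : v.sum * Real.log 2 ≤ v.length * Real.log 3 + Real.log b + e * v.length := by
    have := Real.log_le_log (by positivity) h2
    have hp : (0 : ℝ) < 1 + 1 / (Z : ℝ) := by positivity
    rw [Real.log_mul (by positivity) (by positivity), Real.log_mul (by positivity) hbr.ne', Real.log_pow,
      Real.log_pow, Real.log_pow] at this
    have h3 : Real.log (1 + 1 / (Z : ℝ)) ≤ e := by
      have := Real.log_le_sub_one_of_pos hp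
      have h4 : 1 / (Z : ℝ) ≤ e := by rw [div_le_iff₀ hZr]; exact hZ
      linarith
    have h5 : (v.length : ℝ) * Real.log (1 + 1 / (Z : ℝ)) ≤ v.length * e :=
      mul_le_mul_of_nonneg_left h3 (by positivity)
    linarith
  have ht1 := abs_le.1 ht.1
  have hlog2 : 0 < Real.log 2 := Real.log_pos (by norm_num)
  have hlog2' := FinT_log2
  have hel : 0 ≤ e * v.length := by positivity
  have m1 : (v.sum : ℝ) * Real.log 2 ≤ (2 * v.length + e * v.length) * Real.log 2 :=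
    mul_le_mul_of_nonneg_right (by linarith) hlog2.le
  have m2 : (2 * v.length - e * v.length) * Real.log 2 ≤ (v.sum : ℝ) * Real.log 2 :=
    mul_le_mul_of_nonneg_right (by linarith) hlog2.le
  have m3 : e * v.length * Real.log 2 ≤ e * v.length * 1 := mul_le_mul_of_nonneg_left hlog2' hel
  have hZl : 0 ≤ Real.log Z := Real.log_nonneg (by exact_mod_cast hZ0)
  rw [FinT_log43', abs_le]
  constructor
  · nlinarith
  · nlinarith

/-- The integer and the node have about the same size. -/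
theorem FinT_nb {i j m b J n : ℕ} (hij : i + j ≤ J) (hn : n = 2 ^ i * m) (hm : Odd m)
    (h3 : 3 * m + 1 = 2 * 4 ^ j * b) : 0 < b ∧ |Real.log n - Real.log b| ≤ 2 * J + 1 := by
  have hm0 : 0 < m := hm.pos
  have hb0 : 0 < b := by
    rcases Nat.eq_zero_or_pos b with h | h
    · subst h; omega
    · exact h
  refine ⟨hb0, ?_⟩
  have hbr : (0 : ℝ) < (b : ℝ) := by exact_mod_cast hb0
  have hmr : (1 : ℝ) ≤ (m : ℝ) := by exact_mod_cast hm0
  have h3r : 3 * (m : ℝ) + 1 = 2 * 4 ^ j * b := by exact_mod_cast h3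
  have hnr : (n : ℝ) = 2 ^ i * m := by rw [hn]; push_cast; ring
  have hn0 : (0 : ℝ) < (n : ℝ) := by rw [hnr]; positivity
  have hlog2 : 0 < Real.log 2 := Real.log_pos (by norm_num)
  have hlog2' := FinT_log2
  have u : (n : ℝ) ≤ 2 ^ (i + 2 * j) * b := by
    have h4 : (m : ℝ) ≤ 4 ^ j * b := by
      have : 0 ≤ (4 : ℝ) ^ j * b := by positivity
      nlinarith
    rw [hnr, pow_add, pow_mul, show (2 : ℝ) ^ 2 = 4 by norm_num, mul_assoc]
    exact mul_le_mul_of_nonneg_left h4 (by positivity)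
  have l : (b : ℝ) ≤ 2 * n := by
    have h4 : (1 : ℝ) ≤ 4 ^ j := one_le_pow₀ (by norm_num)
    have h5 : (1 : ℝ) ≤ 2 ^ i := one_le_pow₀ (by norm_num)
    have h6 : (b : ℝ) ≤ 4 ^ j * b := le_mul_of_one_le_left hbr.le h4
    have h7 : (m : ℝ) ≤ 2 ^ i * m := le_mul_of_one_le_left (by linarith) h5
    rw [hnr]
    nlinarith
  have u' : Real.log n ≤ (i + 2 * j : ℕ) * Real.log 2 + Real.log b := by
    have := Real.log_le_log hn0 u
    rwa [Real.log_mul (by positivity) hbr.ne', Real.log_pow] at this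
  have l' : Real.log b ≤ Real.log 2 + Real.log n := by
    have := Real.log_le_log hbr l
    rwa [Real.log_mul (by norm_num) hn0.ne'] at this
  have hJ : ((i + 2 * j : ℕ) : ℝ) ≤ 2 * J := by
    have : i + 2 * j ≤ 2 * J := by omega
    exact_mod_cast this
  have hJ' : ((i + 2 * j : ℕ) : ℝ) * Real.log 2 ≤ 2 * J * 1 :=
    mul_le_mul hJ hlog2' hlog2.le (by positivity)
  have hJ0 : (0 : ℝ) ≤ J := by positivity
  rw [abs_le]
  constructor <;> linarith

/-- The pointwise estimate. -/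
theorem pointT {ε : ℝ} (hε : 0 < ε) : ∃ (e : ℝ) (Z1 : ℤ), 0 < e ∧ e ≤ 1 / 100 ∧ ∀ Z : ℤ, Z1 ≤ Z → ∀ J : ℕ,
    ∃ N0 : ℕ, ∀ n c : ℕ, N0 ≤ n → Rep J e Z n → HasC n c →
      |(c : ℝ) - Real.log n / Real.log (16 / 9)| ≤ ε * Real.log n := by
  obtain ⟨e, he, he1, he2⟩ : ∃ e : ℝ, 0 < e ∧ e ≤ 1 / 100 ∧ e ≤ ε / 50 :=
    ⟨min (1 / 100) (ε / 50), by positivity, min_le_left _ _, min_le_right _ _⟩
  refine ⟨e, ⌈1 / e⌉, he, he1, fun Z hZ J => ?_⟩
  have hZe : 1 / e ≤ (Z : ℝ) := (Int.le_ceil _).trans (by exact_mod_cast hZ)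
  have hZr : (0 : ℝ) < (Z : ℝ) := lt_of_lt_of_le (by positivity) hZe
  have hZ0 : 0 < Z := by exact_mod_cast hZr
  have hZ1 : 1 ≤ e * (Z : ℝ) := by rw [div_le_iff₀ he] at hZe; linarith
  have hZl : 0 ≤ Real.log Z := Real.log_nonneg (by exact_mod_cast hZ0)
  obtain ⟨C0, hC0⟩ := FinT_bound Z.toNat
  set D : ℝ := Real.log Z + 2 * J + 1 with hD
  have hJ0 : (0 : ℝ) ≤ J := by positivity
  have hD0 : 0 ≤ D := by rw [hD]; positivity
  set T : ℝ := 2 * (C0 + 2 + 3 * D) / ε with hT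
  refine ⟨⌈Real.exp T⌉₊, fun n c hn hrep hc => ?_⟩
  have hnT : Real.exp T ≤ n := Nat.ceil_le.1 hn
  have hn0 : (0 : ℝ) < n := lt_of_lt_of_le (Real.exp_pos _) hnT
  have hlogn : T ≤ Real.log n := by
    rw [← Real.log_exp T]; exact Real.log_le_log (Real.exp_pos _) hnT
  have hfin : C0 + 2 + 3 * D ≤ ε / 2 * Real.log n := by
    rw [hT, div_le_iff₀ hε] at hlogn; linarith
  obtain ⟨i, j, m, b, hij, hnm, hm, h3, x, v, hFP, hTyp, hb⟩ := hrep
  obtain ⟨c0, hc0, hl, hu⟩ := hasT hFP hnm hm h3 hb hc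
  obtain ⟨hb0, hnb⟩ := FinT_nb hij hnm hm h3
  have hsz := FinT_size he hZ1 hZ0 hFP hTyp hb hb0
  have hc0' : c0 ≤ C0 := by
    refine hC0 _ ?_ c0 hc0
    have h1 := hFP.2.2.1
    have h0 := hFP.1
    omega
  have t2 := abs_le.1 hTyp.2
  have hlr : ((Rw v : ℕ) : ℝ) + c0 ≤ c := by exact_mod_cast hl
  have hur : (c : ℝ) ≤ (Rw v : ℕ) + c0 + 2 := by exact_mod_cast hu
  have hc0r : (c0 : ℝ) ≤ C0 := by exact_mod_cast hc0'
  have hc0n : (0 : ℝ) ≤ c0 := by positivity
  set ℓ : ℝ := (v.length : ℝ) with hℓ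
  have hℓ0 : 0 ≤ ℓ := by positivity
  have hlam := FinT_log43
  set lam : ℝ := Real.log (4 / 3) with hlamd
  have s1 := abs_le.1 hsz
  have s2 := abs_le.1 hnb
  have hel : 0 ≤ e * ℓ := by positivity
  -- the length
  have k1 : ℓ * lam - 2 * e * ℓ ≤ Real.log n + D := by rw [hD]; linarith
  have k2 : ℓ * (23 / 100) ≤ ℓ * lam - 2 * e * ℓ := by
    have : ℓ * (23 / 100) ≤ ℓ * (lam - 2 * e) := mul_le_mul_of_nonneg_left (by linarith) hℓ0
    linarith
  have hlen : ℓ ≤ 5 * (Real.log n + D) := by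
    have : 0 ≤ Real.log n + D := by
      have : 0 ≤ ℓ * (23 / 100) := by positivity
      linarith
    linarith
  have hdev : |ℓ * lam - Real.log n| ≤ 2 * e * ℓ + D := by
    rw [abs_le, hD]; constructor <;> linarith
  have hlampos : 0 < lam := by linarith
  have hdev2 : |ℓ / 2 - Real.log n / (2 * lam)| ≤ 2 * (2 * e * ℓ + D) := by
    have : ℓ / 2 - Real.log n / (2 * lam) = (ℓ * lam - Real.log n) / (2 * lam) := by
      field_simp
    rw [this, abs_div, abs_of_pos (show 0 < 2 * lam by positivity), div_le_iff₀ (by positivity)]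
    have h5 : 0 ≤ 2 * e * ℓ + D := by positivity
    have h6 : (1 : ℝ) / 2 ≤ 2 * lam := by linarith
    nlinarith
  have k3 := abs_le.1 hdev2
  have k4 : 25 * e * Real.log n ≤ ε / 2 * Real.log n := by
    have hln : 0 ≤ Real.log n := by
      have : 0 ≤ C0 + 2 + 3 * D := by positivity
      by_contra hneg
      have h7 : ε / 2 * Real.log n < 0 := mul_neg_of_pos_of_neg (by positivity) (not_le.1 hneg)
      linarith
    exact mul_le_mul_of_nonneg_right (by linarith) hln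
  have k5 : 5 * e * ℓ ≤ 25 * e * (Real.log n + D) := by
    have := mul_le_mul_of_nonneg_left hlen (show 0 ≤ 5 * e by positivity)
    linarith
  have k6 : 25 * e * D ≤ D := by
    have := mul_le_mul_of_nonneg_right (show 25 * e ≤ 1 by linarith) hD0
    linarith
  rw [FinT_log169, abs_le]
  constructor
  · linarith
  · linarith

open Classical in
theorem almost_all {ε δ : ℝ} (hε : 0 < ε) (hδ : 0 < δ) : ∃ X0 : ℕ, ∀ X : ℕ, X0 ≤ X →
    (((Icc 1 X).filter (fun n => ∃ c : ℕ, HasC n c ∧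
      ε * Real.log n < |(c : ℝ) - Real.log n / Real.log (16 / 9)|)).card : ℝ) ≤ δ * X := by
  obtain ⟨e, Z1, he, he1, hp⟩ := pointT hε
  obtain ⟨Z, J, X0, hZ, hX0⟩ := allN he he1 (show 0 < δ / 2 by positivity) Z1
  obtain ⟨N0, hN0⟩ := hp Z hZ J
  refine ⟨max X0 ⌈2 * N0 / δ⌉₊, fun X hX => ?_⟩
  have h1 := hX0 X ((le_max_left _ _).trans hX)
  have h2 : 2 * N0 / δ ≤ X := Nat.ceil_le.1 ((le_max_right _ _).trans hX)
  have h3 : (N0 : ℝ) ≤ δ / 2 * X := by rw [div_le_iff₀ hδ] at h2; linarith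
  have hsub : (Icc 1 X).filter (fun n => ∃ c : ℕ, HasC n c ∧
      ε * Real.log n < |(c : ℝ) - Real.log n / Real.log (16 / 9)|) ⊆
      (Icc 1 X).filter (fun n => ¬ Rep J e Z n) ∪ range N0 := by
    intro n hn
    obtain ⟨hn1, c, hc, hlt⟩ := mem_filter.1 hn
    rw [mem_union, mem_filter, mem_range]
    by_contra hcon
    push Not at hcon
    exact absurd (hN0 n c hcon.2 (hcon.1 hn1) hc) (not_le.2 hlt)
  calc _ ≤ (((Icc 1 X).filter (fun n => ¬ Rep J e Z n) ∪ range N0).card : ℝ) := by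
        exact_mod_cast card_le_card hsub
    _ ≤ (((Icc 1 X).filter (fun n => ¬ Rep J e Z n)).card : ℝ) + N0 := by
        have := card_union_le ((Icc 1 X).filter (fun n => ¬ Rep J e Z n)) (range N0)
        rw [card_range] at this
        exact_mod_cast this
    _ ≤ δ * X := by linarith

end Pool.Agent.helper62.T2
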