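import Pool.Agent.helper62.T2.FinT

/-!
# T2-HitT: almost all integers come below a constant in the typical time

`rep_down`: if `Rep J e Z n` then `f^[t] n = z` with `1 < z < Z` and `t = v.sum + 2 j + 1 + i`; `t` is typical (as in `pointT`).
`down_all`: for all but `δ X` of the `n ≤ X` (no assumption on the trajectory).  `almost_all2`: among the `n ≤ X` which reach `1`, all but
`δ X` have the typical number of circuits and the typical hitting time of `1`.
-/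

namespace Pool.Agent.helper62.T2

open Pool.Agent.helper14.EX1 Pool.Agent.helper41.Coll Finset

/-- The trajectory of `n` passes through the root of the first passage word. -/
theorem HitT_iter {Z x : ℤ} {v : List ℕ} (h : FP Z x v) {i j m b n : ℕ} (hn : n = 2 ^ i * m) (hm : Odd m)
    (h3 : 3 * m + 1 = 2 * 4 ^ j * b) (hb : 3 * nd x v + 2 = (b : ℤ)) :
    f^[v.sum + (2 * j + (1 + i))] n = (3 * x + 2).toNat := by
  have hx := h.1
  have hbn : (3 * nd x v + 2).toNat = b := by rw [hb]; exact Int.toNat_natCast b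
  have hb3 : 3 ≤ b := by
    obtain ⟨_, _, h5, h6, _, _, h7⟩ := h
    have hl : 1 ≤ v.length := List.length_pos_iff.2 h6
    have h8 := h7 v.length hl le_rfl
    rw [List.take_length, hb] at h8
    omega
  have hm1 : m ≠ 1 := by
    intro h5
    rw [h5] at h3
    have h6 : 1 ≤ 4 ^ j := Nat.one_le_pow _ _ (by norm_num)
    have h7 : 4 ^ j * 3 ≤ 4 ^ j * b := Nat.mul_le_mul_left _ hb3
    have h8 : 2 * 4 ^ j * b = 2 * (4 ^ j * b) := by ring
    rw [h8] at h3
    omega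
  have hfm : f m = 2 ^ (2 * j) * b := by
    refine Cir_f_odd hm1 ?_
    rw [h3, pow_mul]
    norm_num
    ring
  have it := fp_iter h
  rw [hbn] at it
  rw [Function.iterate_add_apply, Function.iterate_add_apply, Function.iterate_add_apply, hn,
    Cir_iter_pow, Function.iterate_one, hfm, Cir_iter_pow, it]

/-- The pointwise estimate for the time. -/
theorem rep_down {ε : ℝ} (hε : 0 < ε) : ∃ (e : ℝ) (Z1 : ℤ), 0 < e ∧ e ≤ 1 / 100 ∧ ∀ Z : ℤ, Z1 ≤ Z → ∀ J : ℕ,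
    ∃ N0 : ℕ, ∀ n : ℕ, N0 ≤ n → Rep J e Z n → ∃ t : ℕ, 1 < f^[t] n ∧ (f^[t] n : ℤ) < Z ∧
      |(t : ℝ) - 2 * Real.log n / Real.log (4 / 3)| ≤ ε * Real.log n := by
  obtain ⟨e, he, he1, he2⟩ : ∃ e : ℝ, 0 < e ∧ e ≤ 1 / 100 ∧ e ≤ ε / 200 :=
    ⟨min (1 / 100) (ε / 200), by positivity, min_le_left _ _, min_le_right _ _⟩
  refine ⟨e, ⌈1 / e⌉, he, he1, fun Z hZ J => ?_⟩
  have hZe : 1 / e ≤ (Z : ℝ) := (Int.le_ceil _).trans (by exact_mod_cast hZ)
  have hZr : (0 : ℝ) < (Z : ℝ) := lt_of_lt_of_le (by positivity) hZe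
  have hZ0 : 0 < Z := by exact_mod_cast hZr
  have hZ1 : 1 ≤ e * (Z : ℝ) := by rw [div_le_iff₀ he] at hZe; linarith
  have hZl : 0 ≤ Real.log Z := Real.log_nonneg (by exact_mod_cast hZ0)
  set D : ℝ := Real.log Z + 2 * J + 1 with hD
  have hJ0 : (0 : ℝ) ≤ J := by positivity
  have hD0 : 0 ≤ D := by rw [hD]; positivity
  set T : ℝ := 2 * (2 * J + 1 + 9 * D) / ε with hT
  refine ⟨⌈Real.exp T⌉₊, fun n hn hrep => ?_⟩
  have hnT : Real.exp T ≤ n := Nat.ceil_le.1 hn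
  have hn0 : (0 : ℝ) < n := lt_of_lt_of_le (Real.exp_pos _) hnT
  have hlogn : T ≤ Real.log n := by
    rw [← Real.log_exp T]; exact Real.log_le_log (Real.exp_pos _) hnT
  have hfin : 2 * J + 1 + 9 * D ≤ ε / 2 * Real.log n := by
    rw [hT, div_le_iff₀ hε] at hlogn; linarith
  obtain ⟨i, j, m, b, hij, hnm, hm, h3, x, v, hFP, hTyp, hb⟩ := hrep
  have hit := HitT_iter hFP hnm hm h3 hb
  obtain ⟨hb0, hnb⟩ := FinT_nb hij hnm hm h3
  have hsz := FinT_size he hZ1 hZ0 hFP hTyp hb hb0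
  have hx0 := hFP.1
  have hxZ := hFP.2.2.1
  refine ⟨v.sum + (2 * j + (1 + i)), ?_, ?_, ?_⟩
  · rw [hit]
    omega
  · rw [hit]
    omega
  have t1 := abs_le.1 hTyp.1
  set ℓ : ℝ := (v.length : ℝ) with hℓ
  have hℓ0 : 0 ≤ ℓ := by positivity
  have hlam := FinT_log43
  set lam : ℝ := Real.log (4 / 3) with hlamd
  have s1 := abs_le.1 hsz
  have s2 := abs_le.1 hnb
  have hel : 0 ≤ e * ℓ := by positivity
  have k1 : ℓ * lam - 2 * e * ℓ ≤ Real.log n + D := by rw [hD]; linarith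
  have k2 : ℓ * (23 / 100) ≤ ℓ * lam - 2 * e * ℓ := by
    have : ℓ * (23 / 100) ≤ ℓ * (lam - 2 * e) := mul_le_mul_of_nonneg_left (by linarith) hℓ0
    linarith
  have hlen : ℓ ≤ 5 * (Real.log n + D) := by
    have : 0 ≤ Real.log n + D := by
      have : 0 ≤ ℓ * (23 / 100) := by positivity
      linarith
    linarith
  have hdev : |ℓ * lam - Real.log n| ≤ 2 * e * ℓ + D := by
    rw [abs_le, hD]; constructor <;> linarith
  have hlampos : 0 < lam := by linarith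
  have hdev2 : |2 * ℓ - 2 * Real.log n / lam| ≤ 8 * (2 * e * ℓ + D) := by
    have : 2 * ℓ - 2 * Real.log n / lam = 2 * (ℓ * lam - Real.log n) / lam := by
      field_simp
    rw [this, abs_div, abs_mul, abs_of_pos hlampos, div_le_iff₀ hlampos, abs_of_pos (by norm_num : (0 : ℝ) < 2)]
    have h5 : 0 ≤ 2 * e * ℓ + D := by positivity
    nlinarith
  have k3 := abs_le.1 hdev2
  have hln : 0 ≤ Real.log n := by
    have : 0 ≤ 2 * J + 1 + 9 * D := by positivity
    by_contra hneg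
    have h7 : ε / 2 * Real.log n < 0 := mul_neg_of_pos_of_neg (by positivity) (not_le.1 hneg)
    linarith
  have k4 : 100 * e * Real.log n ≤ ε / 2 * Real.log n :=
    mul_le_mul_of_nonneg_right (by linarith) hln
  have k5 : 17 * e * ℓ ≤ 85 * e * (Real.log n + D) := by
    have := mul_le_mul_of_nonneg_left hlen (show 0 ≤ 17 * e by positivity)
    linarith
  have k6 : 85 * e * D ≤ D := by
    have := mul_le_mul_of_nonneg_right (show 85 * e ≤ 1 by linarith) hD0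
    linarith
  have k7 : 0 ≤ e * Real.log n := by positivity
  have hij' : ((2 * j + (1 + i) : ℕ) : ℝ) ≤ 2 * J + 1 := by
    have : 2 * j + (1 + i) ≤ 2 * J + 1 := by omega
    exact_mod_cast this
  have hij0 : (0 : ℝ) ≤ ((2 * j + (1 + i) : ℕ) : ℝ) := by positivity
  rw [Nat.cast_add, abs_le]
  constructor
  · linarith
  · linarith

open Classical in
/-- Natural density: all but `δ X` of the integers `n ≤ X` come below `Z` in the typical time. -/
theorem down_all {ε δ : ℝ} (hε : 0 < ε) (hδ : 0 < δ) : ∃ Z X0 : ℕ, ∀ X : ℕ, X0 ≤ X →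
    (((Icc 1 X).filter (fun n => ¬ ∃ t : ℕ, 1 < f^[t] n ∧ f^[t] n < Z ∧
      |(t : ℝ) - 2 * Real.log n / Real.log (4 / 3)| ≤ ε * Real.log n)).card : ℝ) ≤ δ * X := by
  obtain ⟨e, Z1, he, he1, hp⟩ := rep_down hε
  obtain ⟨Z, J, X0, hZ, hX0⟩ := allN he he1 (show 0 < δ / 2 by positivity) Z1
  obtain ⟨N0, hN0⟩ := hp Z hZ J
  refine ⟨Z.toNat, max X0 ⌈2 * N0 / δ⌉₊, fun X hX => ?_⟩
  have h1 := hX0 X ((le_max_left _ _).trans hX)
  have h2 : 2 * N0 / δ ≤ X := Nat.ceil_le.1 ((le_max_right _ _).trans hX)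
  have h3 : (N0 : ℝ) ≤ δ / 2 * X := by rw [div_le_iff₀ hδ] at h2; linarith
  have hsub : (Icc 1 X).filter (fun n => ¬ ∃ t : ℕ, 1 < f^[t] n ∧ f^[t] n < Z.toNat ∧
      |(t : ℝ) - 2 * Real.log n / Real.log (4 / 3)| ≤ ε * Real.log n) ⊆
      (Icc 1 X).filter (fun n => ¬ Rep J e Z n) ∪ range N0 := by
    intro n hn
    obtain ⟨hn1, hlt⟩ := mem_filter.1 hn
    rw [mem_union, mem_filter, mem_range]
    by_contra hcon
    push Not at hcon
    obtain ⟨t, ht1, ht2, ht3⟩ := hN0 n hcon.2 (hcon.1 hn1)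
    exact hlt ⟨t, ht1, by omega, ht3⟩
  calc _ ≤ (((Icc 1 X).filter (fun n => ¬ Rep J e Z n) ∪ range N0).card : ℝ) := by
        exact_mod_cast card_le_card hsub
    _ ≤ (((Icc 1 X).filter (fun n => ¬ Rep J e Z n)).card : ℝ) + N0 := by
        have := card_union_le ((Icc 1 X).filter (fun n => ¬ Rep J e Z n)) (range N0)
        rw [card_range] at this
        exact_mod_cast this
    _ ≤ δ * X := by linarith

/-- The hitting times of `1` of the integers below `N` which reach `1` are bounded. -/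
theorem HitT_bound (N : ℕ) : ∃ C0 : ℕ, ∀ z : ℕ, z < N → (∃ s, f^[s] z = 1) → ∃ s ≤ C0, f^[s] z = 1 := by
  induction N with
  | zero => exact ⟨0, fun z hz => absurd hz (Nat.not_lt_zero z)⟩
  | succ N ih =>
    obtain ⟨C, hC⟩ := ih
    by_cases h : ∃ s, f^[s] N = 1
    · obtain ⟨s, hs⟩ := h
      refine ⟨max C s, fun z hz h0 => ?_⟩
      rcases Nat.lt_succ_iff_lt_or_eq.1 hz with h | h
      · obtain ⟨s', h1, h2⟩ := hC z h h0
        exact ⟨s', h1.trans (le_max_left _ _), h2⟩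
      · subst h
        exact ⟨s, le_max_right _ _, hs⟩
    · refine ⟨C, fun z hz h0 => ?_⟩
      rcases Nat.lt_succ_iff_lt_or_eq.1 hz with h' | h'
      · exact hC z h' h0
      · subst h'; exact absurd h0 h

/-- The first hitting time. -/
theorem HitT_first {n t C0 : ℕ} (h1 : 1 < f^[t] n) (h2 : ∃ s ≤ C0, f^[s] (f^[t] n) = 1) :
    ∃ j : ℕ, f^[j] n = 1 ∧ (∀ i < j, f^[i] n ≠ 1) ∧ t ≤ j ∧ j ≤ t + C0 := by
  classical
  obtain ⟨s, hs, hs1⟩ := h2
  have hex : ∃ j, f^[j] n = 1 := ⟨s + t, by rw [Function.iterate_add_apply]; exact hs1⟩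
  refine ⟨Nat.find hex, Nat.find_spec hex, fun i hi => Nat.find_min hex hi, ?_, ?_⟩
  · by_contra hlt
    obtain ⟨r, hr⟩ : ∃ r, t = r + Nat.find hex := ⟨t - Nat.find hex, by omega⟩
    have h3 := Nat.find_spec hex
    rw [hr, Function.iterate_add_apply, h3, Cir2_iter_one] at h1
    omega
  · refine (Nat.find_min' hex (m := s + t) ?_).trans (by omega)
    rw [Function.iterate_add_apply]; exact hs1

open Classical in
/-- Almost all integers which reach `1` have the typical number of circuits and the typical hitting time. -/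
theorem almost_all2 {ε δ : ℝ} (hε : 0 < ε) (hδ : 0 < δ) : ∃ X0 : ℕ, ∀ X : ℕ, X0 ≤ X →
    (((Icc 1 X).filter (fun n => (∃ s, f^[s] n = 1) ∧ ¬ (
      (∃ c : ℕ, HasC n c ∧ |(c : ℝ) - Real.log n / Real.log (16 / 9)| ≤ ε * Real.log n) ∧
        ∃ j : ℕ, f^[j] n = 1 ∧ (∀ i < j, f^[i] n ≠ 1) ∧
          |(j : ℝ) - 2 * Real.log n / Real.log (4 / 3)| ≤ ε * Real.log n))).card : ℝ) ≤ δ * X := by
  obtain ⟨X1, hX1⟩ := almost_all hε (show 0 < δ / 2 by positivity)
  obtain ⟨Z, X2, hX2⟩ := down_all (show 0 < ε / 2 by positivity) (show 0 < δ / 4 by positivity)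
  obtain ⟨C0, hC0⟩ := HitT_bound Z
  obtain ⟨N0, hN0⟩ : ∃ N0 : ℕ, ∀ n : ℕ, N0 ≤ n → (C0 : ℝ) ≤ ε / 2 * Real.log n ∧ 1 ≤ n := by
    refine ⟨⌈Real.exp (2 * C0 / ε)⌉₊, fun n hn => ?_⟩
    have h1 : Real.exp (2 * C0 / ε) ≤ n := Nat.ceil_le.1 hn
    have h2 : (0 : ℝ) < n := lt_of_lt_of_le (Real.exp_pos _) h1
    have h3 : 2 * C0 / ε ≤ Real.log n := by
      rw [← Real.log_exp (2 * C0 / ε)]; exact Real.log_le_log (Real.exp_pos _) h1
    refine ⟨?_, by exact_mod_cast h2⟩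
    rw [div_le_iff₀ hε] at h3
    linarith
  refine ⟨max (max X1 X2) ⌈4 * N0 / δ⌉₊, fun X hX => ?_⟩
  have h1 := hX1 X (((le_max_left _ _).trans (le_max_left _ _)).trans hX)
  have h2 := hX2 X (((le_max_right _ _).trans (le_max_left _ _)).trans hX)
  have h3 : 4 * N0 / δ ≤ X := Nat.ceil_le.1 ((le_max_right _ _).trans hX)
  have h4 : (N0 : ℝ) ≤ δ / 4 * X := by rw [div_le_iff₀ hδ] at h3; linarith
  set A := (Icc 1 X).filter (fun n => ∃ c : ℕ, HasC n c ∧
      ε * Real.log n < |(c : ℝ) - Real.log n / Real.log (16 / 9)|) with hA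
  set B := (Icc 1 X).filter (fun n => ¬ ∃ t : ℕ, 1 < f^[t] n ∧ f^[t] n < Z ∧
      |(t : ℝ) - 2 * Real.log n / Real.log (4 / 3)| ≤ ε / 2 * Real.log n) with hB
  have hsub : (Icc 1 X).filter (fun n => (∃ s, f^[s] n = 1) ∧ ¬ (
      (∃ c : ℕ, HasC n c ∧ |(c : ℝ) - Real.log n / Real.log (16 / 9)| ≤ ε * Real.log n) ∧
        ∃ j : ℕ, f^[j] n = 1 ∧ (∀ i < j, f^[i] n ≠ 1) ∧
          |(j : ℝ) - 2 * Real.log n / Real.log (4 / 3)| ≤ ε * Real.log n)) ⊆ (A ∪ B) ∪ range N0 := by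
    intro n hn
    obtain ⟨hn1, ⟨s, hs⟩, hnot⟩ := mem_filter.1 hn
    rw [mem_union, mem_union, mem_range]
    by_contra hcon
    push Not at hcon
    obtain ⟨⟨hnA, hnB⟩, hnN⟩ := hcon
    rw [hA, mem_filter] at hnA
    rw [hB, mem_filter] at hnB
    obtain ⟨c, hc⟩ := exists_hasC hs
    have hc1 : |(c : ℝ) - Real.log n / Real.log (16 / 9)| ≤ ε * Real.log n := by
      by_contra hlt
      exact hnA ⟨hn1, c, hc, not_le.1 hlt⟩
    have hB1 : ∃ t : ℕ, 1 < f^[t] n ∧ f^[t] n < Z ∧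
        |(t : ℝ) - 2 * Real.log n / Real.log (4 / 3)| ≤ ε / 2 * Real.log n := by
      by_contra hno
      exact hnB ⟨hn1, hno⟩
    obtain ⟨t, ht1, ht2, ht3⟩ := hB1
    have hreach : ∃ s', f^[s'] (f^[t] n) = 1 := by
      rcases Nat.lt_or_ge s t with h5 | h5
      · exfalso
        obtain ⟨r, hr⟩ : ∃ r, t = r + s := ⟨t - s, by omega⟩
        rw [hr, Function.iterate_add_apply, hs, Cir2_iter_one] at ht1
        omega
      · obtain ⟨r, hr⟩ : ∃ r, s = r + t := ⟨s - t, by omega⟩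
        exact ⟨r, by rw [hr, Function.iterate_add_apply] at hs; exact hs⟩
    obtain ⟨j, hj1, hj2, hj3, hj4⟩ := HitT_first ht1 (hC0 _ ht2 hreach)
    refine hnot ⟨⟨c, hc, hc1⟩, j, hj1, hj2, ?_⟩
    have h6 := (hN0 n hnN).1
    have h7 := abs_le.1 ht3
    have h8 : (t : ℝ) ≤ j := by exact_mod_cast hj3
    have h9 : (j : ℝ) ≤ t + C0 := by exact_mod_cast hj4
    rw [abs_le]
    constructor <;> linarith
  have hAB : (((A ∪ B) ∪ range N0).card : ℝ) ≤ A.card + B.card + N0 := by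
    have h5 := card_union_le (A ∪ B) (range N0)
    have h6 := card_union_le A B
    rw [card_range] at h5
    have h7 : ((A ∪ B) ∪ range N0).card ≤ A.card + B.card + N0 := by omega
    exact_mod_cast h7
  have h5 : (((Icc 1 X).filter (fun n => (∃ s, f^[s] n = 1) ∧ ¬ (
      (∃ c : ℕ, HasC n c ∧ |(c : ℝ) - Real.log n / Real.log (16 / 9)| ≤ ε * Real.log n) ∧
        ∃ j : ℕ, f^[j] n = 1 ∧ (∀ i < j, f^[i] n ≠ 1) ∧
          |(j : ℝ) - 2 * Real.log n / Real.log (4 / 3)| ≤ ε * Real.log n))).card : ℝ) ≤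
      (((A ∪ B) ∪ range N0).card : ℝ) := by exact_mod_cast card_le_card hsub
  linarith

end Pool.Agent.helper62.T2
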