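import Pool.Agent.helper62.T2.Api
import Pool.Agent.helper14.EX1.InjZ

/-!
# T2-Uniq: the first passage word of a node is unique

Induction from the right on `v` (as `nd_inj`, generalizing `w`; but the lengths are not assumed to be equal).  Last letters `k`, `k'`,
parents `y = nd x u`, `y' = nd x' u'` with `Tk k y = Tk k' y'`; `4` divides neither `3 y + 2` nor `3 y' + 2` (`InjZ_end`, or the
hypothesis on the root if `u = []`), so `step_inj` gives `k = k'`, `y = y'`.  If `u = []` and `u' ≠ []` then
`3 y + 2 = 3 x + 2 < Z ≤ 3 nd x' u' + 2`, a contradiction (symmetric: the same); if `u = u' = []` then `x = x'`; otherwise the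
induction hypothesis (the prefix of a first passage word is a first passage word if it is not empty).
-/

namespace Pool.Agent.helper62.T2

open Pool.Agent.helper14.EX1

/-- The prefix of a first passage word. -/
theorem Uniq_pre {Z x : ℤ} {u : List ℕ} {k : ℕ} (h : FP Z x (u ++ [k])) (hu : u ≠ []) : FP Z x u := by
  obtain ⟨h0, h4, hZ, -, h1, ha, hn⟩ := h
  rw [ala_append] at ha
  refine ⟨h0, h4, hZ, hu, fun j hj => h1 j (by simp [hj]), ha.1, fun i hi hi' => ?_⟩
  have h2 := hn i hi (by simp; omega)
  rwa [List.take_append_of_le_length hi'] at h2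

/-- The last parent is at least `Z` if it is not the root. -/
theorem Uniq_ge {Z x : ℤ} {u : List ℕ} {k : ℕ} (h : FP Z x (u ++ [k])) (hu : u ≠ []) :
    Z ≤ 3 * nd x u + 2 := by
  have h1 := (Uniq_pre h hu).2.2.2.2.2.2 u.length
    (Nat.one_le_iff_ne_zero.mpr (fun h0 => hu (List.length_eq_zero_iff.1 h0))) le_rfl
  rwa [List.take_length] at h1

/-- The last parent is not divisible by `4`. -/
theorem Uniq_four {Z x : ℤ} {u : List ℕ} {k : ℕ} (h : FP Z x (u ++ [k])) :
    ¬ (4 : ℤ) ∣ 3 * nd x u + 2 := by
  by_cases hu : u = []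
  · subst hu
    exact h.2.1
  · exact InjZ_end hu (Uniq_pre h hu).2.2.2.2.1 (Uniq_pre h hu).2.2.2.2.2.1

theorem fp_uniq {Z x x' : ℤ} {v v' : List ℕ} (h : FP Z x v) (h' : FP Z x' v') (e : nd x v = nd x' v') :
    x = x' ∧ v = v' := by
  induction v using List.reverseRecOn generalizing v' with
  | nil => exact absurd rfl h.2.2.2.1
  | append_singleton u k ih =>
    obtain rfl | ⟨u', k', rfl⟩ := List.eq_nil_or_concat v'
    · exact absurd rfl h'.2.2.2.1
    · rw [List.concat_eq_append] at *
      have ha := h.2.2.2.2.2.1
      have ha' := h'.2.2.2.2.2.1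
      rw [ala_append] at ha ha'
      rw [nd_append, nd_append] at e
      have hk : 1 ≤ k := h.2.2.2.2.1 k (by simp)
      have hk' : 1 ≤ k' := h'.2.2.2.2.1 k' (by simp)
      have e' : Tk k (nd x u) = Tk k' (nd x' u') := e
      obtain ⟨h1, h2⟩ := step_inj hk hk' ha.2.1 ha'.2.1 (Uniq_four h) (Uniq_four h') e'
      subst h1
      by_cases hu : u = []
      · by_cases hu' : u' = []
        · subst hu hu'
          exact ⟨h2, rfl⟩
        · exfalso
          subst hu
          have h3 := Uniq_ge h' hu'
          have h4 : x = nd x' u' := h2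
          have h5 := h.2.2.1
          rw [← h4] at h3
          omega
      · by_cases hu' : u' = []
        · exfalso
          subst hu'
          have h3 := Uniq_ge h hu
          have h4 : nd x u = x' := h2
          have h5 := h'.2.2.1
          rw [h4] at h3
          omega
        · obtain ⟨h3, h4⟩ := ih (Uniq_pre h hu) (Uniq_pre h' hu') h2
          exact ⟨h3, by rw [h4]⟩

end Pool.Agent.helper62.T2
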